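import Pool.Agent.W711.CR.Stm

/-!
# Project CR: the statements P_pair and P_gap
-/

set_option autoImplicit false
set_option linter.unusedSectionVars false

namespace Pool.Agent.W440.CR

open Pool.Agent.W711.CR

section
variable {H : Type} [NormedAddCommGroup H] [InnerProductSpace ℂ H] [CompleteSpace H]

lemma sa {P : H →L[ℂ] H} (hP : IsSelfAdjoint P) (a b : H) :
    inner ℂ (P a) b = inner ℂ a (P b) :=
  (ContinuousLinearMap.isSelfAdjoint_iff_isSymmetric.mp hP) a b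

lemma idem {P : H →L[ℂ] H} (hPP : P * P = P) (a : H) : P (P a) = P a := by
  conv_rhs => rw [← hPP]
  rfl

lemma norm_sq_re (a : H) : ‖a‖ ^ 2 = (inner ℂ a a : ℂ).re := by
  have := inner_self_eq_norm_sq (𝕜 := ℂ) a
  exact this.symm

lemma nP {P : H →L[ℂ] H} (hP : IsSelfAdjoint P) (hPP : P * P = P) (a : H) :
    ‖P a‖ ^ 2 = (inner ℂ a (P a) : ℂ).re := by
  rw [norm_sq_re, sa hP, idem hPP]

lemma qP {P : H →L[ℂ] H} (hP : IsSelfAdjoint P) (hPP : P * P = P) (a b : H) :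
    inner ℂ (a - P a) (P b) = 0 := by
  rw [← sa hP, map_sub, idem hPP, sub_self, inner_zero_left]

lemma qq {P : H →L[ℂ] H} (hP : IsSelfAdjoint P) (hPP : P * P = P) (a b : H) :
    inner ℂ (a - P a) (b - P b) = inner ℂ (a - P a) b := by
  rw [inner_sub_right, qP hP hPP, sub_zero]

lemma nQ {P : H →L[ℂ] H} (hP : IsSelfAdjoint P) (hPP : P * P = P) (a : H) :
    ‖a - P a‖ ^ 2 = (inner ℂ (a - P a) a : ℂ).re := by
  rw [norm_sq_re, qq hP hPP]

end

/-- (P_pair) -/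
theorem pair : P_pair := by
  intro H _ _ _ P P' hP hPP hP' hPP' e he0 he1 hang ξ
  -- the common fixed vectors
  set T : H →L[ℂ] H × H := (ContinuousLinearMap.id ℂ H - P).prod
    (ContinuousLinearMap.id ℂ H - P') with hT
  set E : Submodule ℂ H := LinearMap.ker T.toLinearMap with hE
  have hmem : ∀ z, z ∈ E ↔ P z = z ∧ P' z = z := by
    intro z
    rw [hE, LinearMap.mem_ker]
    simp only [hT, ContinuousLinearMap.coe_coe, ContinuousLinearMap.prod_apply,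
      sub_apply, ContinuousLinearMap.id_apply, Prod.mk_eq_zero, sub_eq_zero]
    exact ⟨fun h => ⟨h.1.symm, h.2.symm⟩, fun h => ⟨h.1.symm, h.2.symm⟩⟩
  have hclosed : IsClosed (E : Set H) := T.isClosed_ker
  have : CompleteSpace E := hclosed.completeSpace_coe
  obtain ⟨x0, hx0, y, hy, hxy⟩ := Submodule.exists_add_mem_mem_orthogonal (K := E) ξ
  have hy' : ∀ z, P z = z → P' z = z → inner ℂ z y = 0 := fun z h1 h2 =>
    (Submodule.mem_orthogonal E y).mp hy z ((hmem z).mpr ⟨h1, h2⟩)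
  have hx1 := (hmem x0).mp hx0
  have e1 : ξ - P ξ = y - P y := by
    rw [hxy, map_add, hx1.1]; abel
  have e2 : ξ - P' ξ = y - P' y := by
    rw [hxy, map_add, hx1.2]; abel
  rw [e1, e2]
  -- step 1
  have h1 : ‖P' (P y)‖ ≤ e * ‖P y‖ := by
    refine hang (P y) (idem hPP y) fun z hz1 hz2 => ?_
    rw [← sa hP, hz1]
    exact hy' z hz1 hz2
  have hab : (inner ℂ (P y) (P' y) : ℂ).re ≤ e * (‖P y‖ * ‖P' y‖) := by
    have h2 : (inner ℂ (P y) (P' y) : ℂ) = inner ℂ (P' (P y)) (P' y) := by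
      rw [sa hP', idem hPP']
    rw [h2]
    calc (inner ℂ (P' (P y)) (P' y) : ℂ).re ≤ ‖(inner ℂ (P' (P y)) (P' y) : ℂ)‖ :=
          Complex.re_le_norm _
      _ ≤ ‖P' (P y)‖ * ‖P' y‖ := norm_inner_le_norm _ _
      _ ≤ e * ‖P y‖ * ‖P' y‖ := by gcongr
      _ = e * (‖P y‖ * ‖P' y‖) := by ring
  set s : ℝ := ‖P y‖ ^ 2 + ‖P' y‖ ^ 2 with hs
  have hs0 : 0 ≤ s := by positivity
  have hsum : ‖P y + P' y‖ ^ 2 ≤ (1 + e) * s := by
    have h3 := norm_add_sq (𝕜 := ℂ) (P y) (P' y)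
    have h4 : RCLike.re (inner ℂ (P y) (P' y) : ℂ) = (inner ℂ (P y) (P' y) : ℂ).re := rfl
    rw [h4] at h3
    have h5 : 2 * (‖P y‖ * ‖P' y‖) ≤ s := by
      rw [hs]; nlinarith [sq_nonneg (‖P y‖ - ‖P' y‖)]
    rw [h3]
    nlinarith
  have hsy : s ≤ ‖y‖ * ‖P y + P' y‖ := by
    have h6 : s = (inner ℂ y (P y + P' y) : ℂ).re := by
      rw [hs, nP hP hPP, nP hP' hPP', inner_add_right, Complex.add_re]
    rw [h6]
    exact (Complex.re_le_norm _).trans (norm_inner_le_norm _ _)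
  have hs1 : s ≤ (1 + e) * ‖y‖ ^ 2 := by
    by_cases hs2 : s = 0
    · rw [hs2]; positivity
    · have hs3 : 0 < s := lt_of_le_of_ne hs0 (Ne.symm hs2)
      have h7 : s ^ 2 ≤ ‖y‖ ^ 2 * ((1 + e) * s) := by
        calc s ^ 2 ≤ (‖y‖ * ‖P y + P' y‖) ^ 2 := by gcongr
          _ = ‖y‖ ^ 2 * ‖P y + P' y‖ ^ 2 := by ring
          _ ≤ ‖y‖ ^ 2 * ((1 + e) * s) := by gcongr
      have h8 : s * s ≤ ((1 + e) * ‖y‖ ^ 2) * s := by nlinarith
      exact le_of_mul_le_mul_right h8 hs3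
  -- step 2
  set a := y - P y with ha
  set b := y - P' y with hb
  have hna : ‖a‖ ^ 2 = ‖y‖ ^ 2 - ‖P y‖ ^ 2 := by
    rw [ha, nQ hP hPP, inner_sub_left, Complex.sub_re, ← norm_sq_re, sa hP, ← nP hP hPP]
  have hnb : ‖b‖ ^ 2 = ‖y‖ ^ 2 - ‖P' y‖ ^ 2 := by
    rw [hb, nQ hP' hPP', inner_sub_left, Complex.sub_re, ← norm_sq_re, sa hP', ← nP hP' hPP']
  set t : ℝ := ‖a‖ ^ 2 + ‖b‖ ^ 2 with ht
  have ht0 : 0 ≤ t := by positivity
  have ht1 : (1 - e) * ‖y‖ ^ 2 ≤ t := by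
    rw [ht, hna, hnb]; rw [hs] at hs1; linarith
  have ht2 : t = (inner ℂ (a + b) y : ℂ).re := by
    rw [ht, inner_add_left, Complex.add_re, ha, hb, nQ hP hPP, nQ hP' hPP']
  have ht3 : t ≤ ‖a + b‖ * ‖y‖ := by
    rw [ht2]; exact (Complex.re_le_norm _).trans (norm_inner_le_norm _ _)
  have ht4 : (1 - e) * t ≤ ‖a + b‖ ^ 2 := by
    by_cases ht5 : t = 0
    · rw [ht5]; simp
    · have ht6 : 0 < t := lt_of_le_of_ne ht0 (Ne.symm ht5)
      have h9 : t ^ 2 ≤ ‖a + b‖ ^ 2 * ‖y‖ ^ 2 := by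
        calc t ^ 2 ≤ (‖a + b‖ * ‖y‖) ^ 2 := by gcongr
          _ = _ := by ring
      have h10 : ((1 - e) * t) * t ≤ ‖a + b‖ ^ 2 * t := by
        have h11 : (1 - e) * t ^ 2 ≤ (1 - e) * (‖a + b‖ ^ 2 * ‖y‖ ^ 2) :=
          mul_le_mul_of_nonneg_left h9 (by linarith)
        have h12 : ‖a + b‖ ^ 2 * ((1 - e) * ‖y‖ ^ 2) ≤ ‖a + b‖ ^ 2 * t :=
          mul_le_mul_of_nonneg_left ht1 (by positivity)
        nlinarith
      exact le_of_mul_le_mul_right h10 ht6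
  -- step 3
  have h13 := norm_add_sq (𝕜 := ℂ) a b
  have h14 : RCLike.re (inner ℂ a b : ℂ) = (inner ℂ a b : ℂ).re := rfl
  rw [h14] at h13
  have h15 : -e * t ≤ 2 * (inner ℂ a b : ℂ).re := by
    rw [ht] at ht4 ⊢
    linarith
  exact h15

/-- (P_gap) -/
theorem gap : P_gap := by
  intro H _ _ _ P hP hPP e c hc hsymm hpair hsum hfix
  set D : H →L[ℂ] H := ∑ i, (ContinuousLinearMap.id ℂ H - P i) with hD
  have hDa : ∀ x, D x = ∑ i, (x - P i x) := by
    intro x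
    rw [hD, sum_apply]
    rfl
  have hDsa : ∀ x y, inner ℂ (D x) y = ∑ i, inner ℂ (x - P i x) (y - P i y) := by
    intro x y
    rw [hDa, sum_inner]
    exact Finset.sum_congr rfl fun i _ => (qq (hP i) (hPP i) x y).symm
  have hDre : ∀ x, (inner ℂ (D x) x : ℂ).re = ∑ i, ‖x - P i x‖ ^ 2 := by
    intro x
    rw [hDsa, Complex.re_sum]
    exact Finset.sum_congr rfl fun i _ => (norm_sq_re _).symm
  -- (1)
  have h1 : ∀ x, c * (∑ i, ‖x - P i x‖ ^ 2) ≤ ‖D x‖ ^ 2 := by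
    intro x
    have hs := hsum
    simp only [Finset.sum_erase_eq_sub (Finset.mem_univ _), Fin.sum_univ_four] at hs
    have hs0 := hs 0
    have hs1 := hs 1
    have hs2 := hs 2
    have hs3 := hs 3
    rw [hsymm 1 0] at hs1
    rw [hsymm 2 0, hsymm 2 1] at hs2
    rw [hsymm 3 0, hsymm 3 1, hsymm 3 2] at hs3
    have p01 := hpair 0 1 (by decide) x
    have p02 := hpair 0 2 (by decide) x
    have p03 := hpair 0 3 (by decide) x
    have p12 := hpair 1 2 (by decide) x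
    have p13 := hpair 1 3 (by decide) x
    have p23 := hpair 2 3 (by decide) x
    rw [hDa, Fin.sum_univ_four, Fin.sum_univ_four]
    set q0 := x - P 0 x
    set q1 := x - P 1 x
    set q2 := x - P 2 x
    set q3 := x - P 3 x
    have E1 := norm_add_sq (𝕜 := ℂ) (q0 + q1 + q2) q3
    have E2 := norm_add_sq (𝕜 := ℂ) (q0 + q1) q2
    have E3 := norm_add_sq (𝕜 := ℂ) q0 q1
    simp only [inner_add_left, map_add] at E1 E2 E3
    have hre : ∀ z : ℂ, RCLike.re z = z.re := fun _ => rfl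
    simp only [hre] at E1 E2 E3
    have m0 : 0 ≤ ‖q0‖ ^ 2 * (1 - c - (e 0 1 + e 0 2 + e 0 3)) :=
      mul_nonneg (by positivity) (by linarith)
    have m1 : 0 ≤ ‖q1‖ ^ 2 * (1 - c - (e 0 1 + e 1 2 + e 1 3)) :=
      mul_nonneg (by positivity) (by linarith)
    have m2 : 0 ≤ ‖q2‖ ^ 2 * (1 - c - (e 0 2 + e 1 2 + e 2 3)) :=
      mul_nonneg (by positivity) (by linarith)
    have m3 : 0 ≤ ‖q3‖ ^ 2 * (1 - c - (e 0 3 + e 1 3 + e 2 3)) :=
      mul_nonneg (by positivity) (by linarith)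
    rw [E1, E2, E3]
    nlinarith
  -- (3)
  have h3 : ∀ x, c * ‖D x‖ ^ 2 ≤ ∑ i, ‖D x - P i (D x)‖ ^ 2 := by
    intro x
    set z := D x with hz
    set a1 : ℝ := ∑ i, ‖x - P i x‖ ^ 2 with ha1
    set a3 : ℝ := ∑ i, ‖z - P i z‖ ^ 2 with ha3
    have ha10 : 0 ≤ a1 := Finset.sum_nonneg fun i _ => by positivity
    have ha30 : 0 ≤ a3 := Finset.sum_nonneg fun i _ => by positivity
    have h4 : ‖z‖ ^ 2 ≤ ∑ i, ‖x - P i x‖ * ‖z - P i z‖ := by
      rw [norm_sq_re]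
      conv_lhs => rw [hz]
      rw [← hz, hDsa, Complex.re_sum]
      exact Finset.sum_le_sum fun i _ =>
        (Complex.re_le_norm _).trans (norm_inner_le_norm _ _)
    have h5 : (‖z‖ ^ 2) ^ 2 ≤ a1 * a3 := by
      calc (‖z‖ ^ 2) ^ 2 ≤ (∑ i, ‖x - P i x‖ * ‖z - P i z‖) ^ 2 := by gcongr
        _ ≤ a1 * a3 := Finset.sum_mul_sq_le_sq_mul_sq _ _ _
    have h6 : c * a1 ≤ ‖z‖ ^ 2 := h1 x
    by_cases h7 : a1 = 0
    · rw [h7, zero_mul] at h5
      have h8 : ‖z‖ ^ 2 = 0 := by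
        have : (‖z‖ ^ 2) ^ 2 = 0 := le_antisymm h5 (by positivity)
        exact pow_eq_zero_iff (two_ne_zero) |>.mp this
      rw [h8, mul_zero]; exact ha30
    · have h9 : 0 < a1 := lt_of_le_of_ne ha10 (Ne.symm h7)
      have h10 : a1 * (c * ‖z‖ ^ 2) ≤ a1 * a3 := by
        have h11 : (c * a1) * ‖z‖ ^ 2 ≤ ‖z‖ ^ 2 * ‖z‖ ^ 2 :=
          mul_le_mul_of_nonneg_right h6 (by positivity)
        nlinarith
      exact le_of_mul_le_mul_left h10 h9
  -- density of the range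
  have hadj : ∀ x y, inner ℂ (D x) y = inner ℂ x (D y) := by
    intro x y
    rw [hDsa, ← inner_conj_symm x (D y), hDsa, map_sum]
    exact Finset.sum_congr rfl fun i _ => (inner_conj_symm _ _).symm
  have hker : ∀ x, D x = 0 → x = 0 := by
    intro x hx
    have h4 : ∑ i, ‖x - P i x‖ ^ 2 = 0 := by
      rw [← hDre, hx, inner_zero_left]; rfl
    refine hfix x fun i => ?_
    have h5 := (Finset.sum_eq_zero_iff_of_nonneg (fun i _ => by positivity)).mp h4 i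
      (Finset.mem_univ i)
    have h6 : ‖x - P i x‖ = 0 := pow_eq_zero_iff (two_ne_zero) |>.mp h5
    exact (sub_eq_zero.mp (norm_eq_zero.mp h6)).symm
  have hdense : (LinearMap.range D.toLinearMap).topologicalClosure = ⊤ := by
    rw [Submodule.topologicalClosure_eq_top_iff, Submodule.eq_bot_iff]
    intro y hy
    refine hker y ?_
    have h4 := (Submodule.mem_orthogonal _ y).mp hy (D (D y)) ⟨D y, rfl⟩
    rw [hadj] at h4
    exact inner_self_eq_zero.mp h4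
  intro ξ
  have hcl : IsClosed {z : H | c * ‖z‖ ^ 2 ≤ ∑ i, ‖z - P i z‖ ^ 2} :=
    isClosed_le (by fun_prop) (by fun_prop)
  have hsub : ((LinearMap.range D.toLinearMap : Submodule ℂ H) : Set H) ⊆
      {z : H | c * ‖z‖ ^ 2 ≤ ∑ i, ‖z - P i z‖ ^ 2} := by
    rintro z ⟨x, rfl⟩
    exact h3 x
  have hmem : ξ ∈ ((LinearMap.range D.toLinearMap).topologicalClosure : Set H) := by
    rw [hdense]; trivial
  exact (closure_minimal hsub hcl) hmem

end Pool.Agent.W440.CR
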